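import Mathlib
import Pool.Agent.Q88.CC.Final

/-!
# A convex-cyclic operator whose negative is not convex-cyclic
-/

set_option autoImplicit false

namespace Pool.Agent.Results.MP_cfec29_an.NegativeNotConvexCyclic

/-- `T` is convex-cyclic: the convex hull of some orbit is dense. -/
def ConvexCyclic {H : Type*} [NormedAddCommGroup H] [InnerProductSpace ℂ H] (T : H →L[ℂ] H) : Prop :=
  ∃ x : H, Dense (convexHull ℝ (Set.range fun k : ℕ => (T ^ k) x))

/-- There are a separable complex Hilbert space and a bounded operator `T` on it which is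
convex-cyclic while `-T` is not convex-cyclic. (`T = -16 + (2/25) i (1 - S)`, where `S` is the
unilateral shift.) -/
theorem result :
    ∃ (H : Type) (_ : NormedAddCommGroup H) (_ : InnerProductSpace ℂ H) (_ : CompleteSpace H)
      (_ : TopologicalSpace.SeparableSpace H) (T : H →L[ℂ] H),
      ConvexCyclic T ∧ ¬ ConvexCyclic (-T) := by
  refine ⟨Q88.CC.L2, inferInstance, inferInstance, inferInstance, Q88.QN.XX_separable,
    (-16 : ℂ) • Q88.CC.uu, Q88.CC.pos, ?_⟩
  have h : -((-16 : ℂ) • Q88.CC.uu) = (16 : ℂ) • Q88.CC.uu := by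
    rw [neg_smul, neg_neg]
  rw [h]
  exact Q88.CC.neg

end Pool.Agent.Results.MP_cfec29_an.NegativeNotConvexCyclic
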